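import Pool.Agent.U837.RP.Lin

set_option autoImplicit false

/-!
Goldbach windows for all the even integers near the values of all integer polynomials in several variables with small
coefficients, at almost all points of a cube.
-/

namespace Pool.Agent.U837.RP
open Finset Polynomial

/-- one polynomial in several variables -/
lemma one_multi (k D A W U m₀ : ℕ) (ε : ℝ) (hε : 0 < ε) (P : ℕ → Prop)
    (hP : ∀ m : ℕ, m₀ ≤ m → 2 ∣ m → Pool.Agent.W93.PG.WinP ε A m → P m) :
    ∃ x₀ : ℕ, ∀ x : ℕ, x₀ ≤ x → ∀ F : MvPolynomial (Fin k) ℤ, 1 ≤ F.totalDegree → F.totalDegree ≤ D →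
      (∀ s, ((|F.coeff s| : ℤ) : ℝ) ≤ Real.log x ^ W) →
      ∀ S : Finset (Fin k → ℤ), (∀ n ∈ S, (∀ i, n i ∈ Icc (1 : ℤ) x) ∧ ∃ m : ℕ, 0 < m ∧ Even m ∧
        |(m : ℝ) - ((MvPolynomial.eval n F : ℤ) : ℝ)| ≤ Real.log x ^ W ∧ ¬ P m) →
      (S.card : ℝ) ≤ (x : ℝ) ^ k / Real.log x ^ U := by
  classical
  obtain ⟨B, hB⟩ : ∃ B, B = (D + 1) ^ k * (2 * D) ^ D + W + 3 := ⟨_, rfl⟩
  have hex : ∀ d : ℕ, ∃ N₀ : ℕ, 1 ≤ d → ∀ N : ℕ, N₀ ≤ N → ∀ x : ℕ, ∀ f : ℝ[X], f.natDegree = d →
      |f.leadingCoeff| ≤ Real.log N ^ B →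
      (N : ℝ) ≤ Real.log N ^ B * (|f.leadingCoeff| * (x : ℝ) ^ d) →
      ∀ M : ℤ, (∀ n ∈ Ioc M (M + x), f.eval (n : ℝ) ≤ B * N) →
      ∀ S : Finset ℤ, (∀ n ∈ S, n ∈ Ioc M (M + x) ∧
        ∃ m : ℕ, 0 < m ∧ Even m ∧ |(m : ℝ) - f.eval (n : ℝ)| ≤ Real.log N ^ W ∧ ¬ P m) →
      (S.card : ℝ) ≤ x / Real.log N ^ (U + 1) := by
    intro d
    by_cases hd : 1 ≤ d
    · obtain ⟨N₀, h⟩ := poly_near d A B W (U + 1) m₀ hd ε hε P hP
      exact ⟨N₀, fun _ => h⟩
    · exact ⟨0, fun h => absurd h hd⟩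
  choose N₀ hN₀ using hex
  obtain ⟨n1, h1⟩ := Pool.Agent.H373R2.T7.ev_L' (((D + 1) ^ k * (2 * D) ^ D : ℕ) + ((D + 2 : ℕ) : ℝ) ^ k + 3)
  refine ⟨n1 + 3 + ∑ d ∈ range (D + 1), N₀ d, fun x hx F hF1 hFD hFc S hS => ?_⟩
  have hL3 := h1 x (by omega)
  obtain ⟨L, hL⟩ : ∃ L, L = Real.log (x : ℝ) := ⟨_, rfl⟩
  rw [← hL] at hL3 hS hFc ⊢
  have hk1 : (0 : ℝ) ≤ (((D + 1) ^ k * (2 * D) ^ D : ℕ) : ℝ) := Nat.cast_nonneg _
  have hk2 : (0 : ℝ) ≤ ((D + 2 : ℕ) : ℝ) ^ k := by positivity
  have hL0 : 0 < L := by linarith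
  have hx1 : 1 ≤ x := by omega
  have hx0 : (0 : ℝ) < x := by exact_mod_cast hx1
  have hD1 : 1 ≤ D := by omega
  obtain ⟨d, hd⟩ : ∃ d, d = F.totalDegree := ⟨_, rfl⟩
  rw [← hd] at hF1 hFD
  obtain ⟨R, hR⟩ : ∃ R : ℕ, R = ⌊L ^ W⌋₊ := ⟨_, rfl⟩
  have hR1 : (R : ℝ) ≤ L ^ W := by rw [hR]; exact Nat.floor_le (by positivity)
  have hLW : 1 ≤ L ^ W := one_le_pow₀ (by linarith)
  have hc : ∀ s, |F.coeff s| ≤ R := by
    intro s
    have g1 := hFc s
    have g2 : ((F.coeff s).natAbs : ℝ) ≤ L ^ W := by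
      rw [Nat.cast_natAbs]
      exact g1
    have g3 : (F.coeff s).natAbs ≤ R := by rw [hR]; exact Nat.le_floor g2
    rw [Int.abs_eq_natAbs]
    exact_mod_cast g3
  obtain ⟨a, ha1, ha2⟩ := exists_dir F D (by omega) (by omega)
  rw [← hd] at ha2
  obtain ⟨N, hN⟩ : ∃ N : ℕ, N = x ^ d * (R + 1) := ⟨_, rfl⟩
  have hxN : x ≤ N := by
    rw [hN]
    calc x = x ^ 1 * 1 := by ring
      _ ≤ x ^ d * (R + 1) := Nat.mul_le_mul (Nat.pow_le_pow_right hx1 hF1) (by omega)
  have hN₀d : N₀ d ≤ N := by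
    have : N₀ d ≤ ∑ d ∈ range (D + 1), N₀ d :=
      single_le_sum (f := N₀) (fun _ _ => Nat.zero_le _) (mem_range.2 (by omega))
    omega
  have hlNx : L ≤ Real.log N := by
    rw [hL]
    exact Real.log_le_log hx0 (by exact_mod_cast hxN)
  have hlN1 : 1 ≤ Real.log N := by linarith
  have hLN : L ^ W ≤ Real.log N ^ W := pow_le_pow_left₀ hL0.le hlNx W
  -- the top coefficient
  obtain ⟨c, hcd⟩ : ∃ c : ℤ, c = MvPolynomial.eval a (MvPolynomial.homogeneousComponent d F) := ⟨_, rfl⟩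
  rw [← hcd] at ha2
  have hsupG : ∀ s ∈ (MvPolynomial.homogeneousComponent d F).support,
      s ∈ F.support ∧ (MvPolynomial.homogeneousComponent d F).coeff s = F.coeff s := by
    intro s hs
    rw [MvPolynomial.mem_support_iff, MvPolynomial.coeff_homogeneousComponent] at hs
    by_cases h : s.degree = d
    · rw [if_pos h] at hs
      refine ⟨MvPolynomial.mem_support_iff.2 hs, ?_⟩
      rw [MvPolynomial.coeff_homogeneousComponent, if_pos h]
    · rw [if_neg h] at hs
      exact absurd rfl hs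
  have hGd : (MvPolynomial.homogeneousComponent d F).totalDegree ≤ d :=
    (MvPolynomial.homogeneousComponent_isHomogeneous d F).totalDegree_le
  have hcb : |c| ≤ (((D + 1) ^ k * R * D ^ d : ℕ) : ℤ) := by
    rw [hcd]
    exact eval_bound F _ D R D d (by omega) hD1 hsupG hGd hc a (fun i => by
      rw [abs_of_nonneg (ha1 i).1]
      exact (ha1 i).2)
  have hcb' : |(c : ℝ)| ≤ Real.log N ^ B := by
    have g1 : |(c : ℝ)| ≤ (((D + 1) ^ k * R * D ^ d : ℕ) : ℝ) := by exact_mod_cast hcb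
    refine g1.trans ?_
    have g2 : (D + 1) ^ k * R * D ^ d ≤ ((D + 1) ^ k * (2 * D) ^ D) * R := by
      calc (D + 1) ^ k * R * D ^ d = (D + 1) ^ k * D ^ d * R := by ring
        _ ≤ (D + 1) ^ k * (2 * D) ^ D * R := by
            apply Nat.mul_le_mul_right
            apply Nat.mul_le_mul_left
            exact (Nat.pow_le_pow_left (by omega) d).trans (Nat.pow_le_pow_right (by omega) hFD)
    calc (((D + 1) ^ k * R * D ^ d : ℕ) : ℝ) ≤ (((D + 1) ^ k * (2 * D) ^ D * R : ℕ) : ℝ) := by exact_mod_cast g2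
      _ = (((D + 1) ^ k * (2 * D) ^ D : ℕ) : ℝ) * R := by push_cast; ring
      _ ≤ L * L ^ W := mul_le_mul (by linarith) hR1 (Nat.cast_nonneg _) hL0.le
      _ = L ^ (W + 1) := by rw [pow_succ]; ring
      _ ≤ Real.log N ^ (W + 1) := pow_le_pow_left₀ hL0.le hlNx _
      _ ≤ Real.log N ^ B := pow_le_pow_right₀ hlN1 (by omega)
  have hc1 : (1 : ℝ) ≤ |(c : ℝ)| := by
    have : 1 ≤ |c| := Int.one_le_abs ha2
    exact_mod_cast this
  -- the lines
  obtain ⟨box, hbox⟩ : ∃ box : Finset (Fin k → ℤ), box = Fintype.piFinset (fun _ => Icc (-((D * x : ℕ) : ℤ)) x) := ⟨_, rfl⟩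
  obtain ⟨T, hT⟩ : ∃ T : (Fin k → ℤ) → Finset ℤ, T = fun b => (Ioc (0 : ℤ) (0 + x)).filter (fun t => (fun i => b i + a i * t) ∈ S) := ⟨_, rfl⟩
  have hline : ∀ b ∈ box, ((T b).card : ℝ) ≤ x / L ^ (U + 1) := by
    intro b hb
    rw [hbox, Fintype.mem_piFinset] at hb
    obtain ⟨g, hg⟩ : ∃ g : ℤ[X], g = line F b a := ⟨_, rfl⟩
    have hgc : g.coeff d = c := by
      rw [hg, line_coeff F b a d (by omega), hcd]
    have hgn : g.natDegree = d := by
      apply le_antisymm
      · rw [hg]; exact line_natDegree F b a d (by omega)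
      · apply le_natDegree_of_ne_zero
        rw [hgc]
        exact ha2
    obtain ⟨f, hf⟩ : ∃ f : ℝ[X], f = g.map (Int.castRingHom ℝ) := ⟨_, rfl⟩
    have hfd : f.natDegree = d := by
      rw [hf, natDegree_map_eq_of_injective (RingHom.injective_int _), hgn]
    have hfl : f.leadingCoeff = (c : ℝ) := by
      rw [hf, leadingCoeff_map_of_injective (RingHom.injective_int _), leadingCoeff, hgn, hgc]
      simp
    have hfev : ∀ t : ℤ, f.eval (t : ℝ) = ((MvPolynomial.eval (fun i => b i + a i * t) F : ℤ) : ℝ) := by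
      intro t
      rw [← line_eval, ← hg, hf, eval_map, eval₂_eq_eval_map]
      exact eval_intCast_map (Int.castRingHom ℝ) g t
    have key := hN₀ d hF1 N hN₀d x f hfd (by rw [hfl]; exact hcb') (by
        have h2 : ((R : ℝ) + 1) ≤ Real.log N ^ B := by
          calc ((R : ℝ) + 1) ≤ L ^ W + L ^ W := by linarith
            _ = L ^ W * 2 := by ring
            _ ≤ L ^ W * L := mul_le_mul_of_nonneg_left (by linarith) (by positivity)
            _ = L ^ (W + 1) := by rw [pow_succ]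
            _ ≤ Real.log N ^ (W + 1) := pow_le_pow_left₀ hL0.le hlNx _
            _ ≤ Real.log N ^ B := pow_le_pow_right₀ hlN1 (by omega)
        calc (N : ℝ) = (x : ℝ) ^ d * (R + 1) := by rw [hN]; push_cast; ring
          _ ≤ (|f.leadingCoeff| * (x : ℝ) ^ d) * Real.log N ^ B := by
              apply mul_le_mul _ h2 (by positivity) (by positivity)
              rw [hfl]
              exact le_mul_of_one_le_left (by positivity) hc1
          _ = _ := by ring) 0 (by
        intro t ht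
        rw [mem_Ioc] at ht
        rw [hfev]
        have e1 : |MvPolynomial.eval (fun i => b i + a i * t) F| ≤ (((D + 1) ^ k * R * (2 * D * x) ^ d : ℕ) : ℤ) := by
          apply eval_bound F F D R (2 * D * x) d (by omega) (Nat.mul_pos (by omega) hx1) (fun s hs => ⟨hs, rfl⟩) (by omega) hc
          intro i
          have b1 := mem_Icc.1 (hb i)
          have a1 := ha1 i
          have e2 : |a i * t| ≤ D * x := by
            rw [abs_mul, abs_of_nonneg a1.1, abs_of_pos (by omega)]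
            exact mul_le_mul a1.2 (by omega) (by omega) (by positivity)
          have e3 : |b i| ≤ D * x := by
            rw [abs_le]
            have b2 := b1.1
            push_cast at b2
            refine ⟨b2, ?_⟩
            have : (x : ℤ) ≤ D * x := by
              have : (1 : ℤ) ≤ D := by exact_mod_cast hD1
              nlinarith
            omega
          have e4 := abs_add_le (b i) (a i * t)
          push_cast
          linarith
        have e5 : ((MvPolynomial.eval (fun i => b i + a i * t) F : ℤ) : ℝ) ≤ (((D + 1) ^ k * R * (2 * D * x) ^ d : ℕ) : ℝ) := by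
          exact_mod_cast (le_abs_self _).trans e1
        refine e5.trans ?_
        have e6 : (D + 1) ^ k * R * (2 * D * x) ^ d ≤ B * N := by
          rw [mul_pow, hN]
          calc (D + 1) ^ k * R * ((2 * D) ^ d * x ^ d) = ((D + 1) ^ k * (2 * D) ^ d) * (x ^ d * R) := by ring
            _ ≤ B * (x ^ d * (R + 1)) := by
                apply Nat.mul_le_mul _ (Nat.mul_le_mul_left _ (by omega))
                have : (D + 1) ^ k * (2 * D) ^ d ≤ (D + 1) ^ k * (2 * D) ^ D :=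
                  Nat.mul_le_mul_left _ (Nat.pow_le_pow_right (by omega) hFD)
                omega
        exact_mod_cast e6) (T b) (by
        intro t ht
        rw [hT] at ht
        simp only at ht
        rw [mem_filter] at ht
        obtain ⟨ht1, ht2⟩ := ht
        obtain ⟨_, m, m1, m2, m3, m4⟩ := hS _ ht2
        refine ⟨ht1, m, m1, m2, ?_, m4⟩
        rw [hfev]
        exact m3.trans hLN)
    refine key.trans ?_
    apply div_le_div_of_nonneg_left hx0.le (by positivity)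
    exact pow_le_pow_left₀ hL0.le hlNx _
  -- double counting
  have hdc : S.card * x ≤ ∑ b ∈ box, (T b).card := by
    have e1 : ∑ b ∈ box, (T b).card = ∑ t ∈ Ioc (0 : ℤ) (0 + x), (box.filter (fun b => (fun i => b i + a i * t) ∈ S)).card := by
      rw [hT]
      simp only [card_filter]
      rw [sum_comm]
    rw [e1]
    have e2 : ∀ t ∈ Ioc (0 : ℤ) (0 + x), S.card ≤ (box.filter (fun b => (fun i => b i + a i * t) ∈ S)).card := by
      intro t ht
      rw [mem_Ioc] at ht
      apply card_le_card_of_injOn (fun n => fun i => n i - a i * t)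
      · intro n hn
        have hn' := (hS n (mem_coe.1 hn)).1
        rw [mem_coe, mem_filter, hbox, Fintype.mem_piFinset]
        refine ⟨fun i => ?_, ?_⟩
        · have n1 := mem_Icc.1 (hn' i)
          have a1 := ha1 i
          have e3 : a i * t ≤ D * x := mul_le_mul a1.2 (by omega) (by omega) (by positivity)
          have e4 : 0 ≤ a i * t := mul_nonneg a1.1 (by omega)
          rw [mem_Icc]
          push_cast
          constructor
          · linarith
          · linarith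
        · have e5 : (fun i => (n i - a i * t) + a i * t) = n := by
            funext i
            ring
          rw [e5]
          exact mem_coe.1 hn
      · intro n1 _ n2 _ h
        funext i
        have := congrFun h i
        simp only at this
        linarith
    have e3 := sum_le_sum e2
    rw [sum_const, Int.card_Ioc] at e3
    have e4 : (0 + (x : ℤ) - 0).toNat = x := by omega
    rw [e4, smul_eq_mul] at e3
    rw [mul_comm]
    exact e3
  have hbc : (box.card : ℝ) ≤ L * (x : ℝ) ^ k := by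
    rw [hbox, Fintype.card_piFinset]
    simp only [prod_const, card_univ, Fintype.card_fin, Int.card_Icc]
    have e : ((x : ℤ) + 1 - -((D * x : ℕ) : ℤ)).toNat = (D + 1) * x + 1 := by
      have : (((D + 1) * x + 1 : ℕ) : ℤ) = (x : ℤ) + 1 - -((D * x : ℕ) : ℤ) := by push_cast; ring
      rw [← this, Int.toNat_natCast]
    rw [e]
    calc ((((D + 1) * x + 1) ^ k : ℕ) : ℝ) ≤ (((D + 2) * x : ℕ) : ℝ) ^ k := by
          exact_mod_cast Nat.pow_le_pow_left (by nlinarith) k
      _ = ((D + 2 : ℕ) : ℝ) ^ k * (x : ℝ) ^ k := by push_cast; rw [mul_pow]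
      _ ≤ L * (x : ℝ) ^ k := mul_le_mul_of_nonneg_right (by linarith) (by positivity)
  have hfin : (S.card : ℝ) * x ≤ (L * (x : ℝ) ^ k) * (x / L ^ (U + 1)) := by
    calc (S.card : ℝ) * x ≤ ∑ b ∈ box, ((T b).card : ℝ) := by exact_mod_cast hdc
      _ ≤ ∑ _b ∈ box, x / L ^ (U + 1) := sum_le_sum hline
      _ = box.card * (x / L ^ (U + 1)) := by rw [sum_const, nsmul_eq_mul]
      _ ≤ _ := mul_le_mul_of_nonneg_right hbc (by positivity)
  have e9 : (L * (x : ℝ) ^ k) * (x / L ^ (U + 1)) = ((x : ℝ) ^ k / L ^ U) * x := by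
    rw [pow_succ]
    field_simp
  rw [e9] at hfin
  exact le_of_mul_le_mul_right hfin hx0

/-- the polynomial with the coefficients `c` -/
noncomputable def mpol (k D : ℕ) (c : (Fin k → Fin (D + 1)) → ℤ) : MvPolynomial (Fin k) ℤ :=
  ∑ e : Fin k → Fin (D + 1), MvPolynomial.monomial (Finsupp.equivFunOnFinite.symm (fun i => (e i : ℕ))) (c e)

lemma mpol_coeff (k D : ℕ) (F : MvPolynomial (Fin k) ℤ) (hF : F.totalDegree ≤ D) :
    mpol k D (fun e => F.coeff (Finsupp.equivFunOnFinite.symm (fun i => (e i : ℕ)))) = F := by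
  classical
  ext s
  unfold mpol
  rw [MvPolynomial.coeff_sum]
  simp only [MvPolynomial.coeff_monomial]
  by_cases hs : ∀ i, s i < D + 1
  · rw [sum_eq_single (fun i => (⟨s i, hs i⟩ : Fin (D + 1)))]
    · have e : (Finsupp.equivFunOnFinite.symm (fun i => (((⟨s i, hs i⟩ : Fin (D + 1)) : ℕ))) : Fin k →₀ ℕ) = s := by
        ext i
        simp
      rw [e, if_pos rfl]
    · intro e _ he
      rw [if_neg]
      intro h
      apply he
      funext i
      ext
      have h9 := DFunLike.congr_fun h i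
      simpa using h9
    · intro h
      exact absurd (mem_univ _) h
  · have h0 : F.coeff s = 0 := by
      by_contra hne
      have h5 := MvPolynomial.le_totalDegree (MvPolynomial.mem_support_iff.2 hne)
      have h6 : (s.sum fun _ e => e) = ∑ i, s i := by
        rw [Finsupp.sum_fintype _ _ (fun _ => rfl)]
      rw [h6] at h5
      push Not at hs
      obtain ⟨i, hi⟩ := hs
      have h8 : s i ≤ ∑ i, s i := single_le_sum (f := fun i => s i) (fun _ _ => Nat.zero_le _) (mem_univ i)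
      omega
    rw [h0]
    apply sum_eq_zero
    intro e _
    rw [ite_eq_right_iff]
    intro h
    exfalso
    apply hs
    intro i
    have h9 := DFunLike.congr_fun h i
    have h10 : (e i : ℕ) = s i := by simpa using h9
    rw [← h10]
    exact (e i).2

/-- all the even integers near the values of all the integer polynomials in `k` variables with small coefficients -/
theorem multi_values (k D A W U m₀ : ℕ) (ε : ℝ) (hε : 0 < ε) (P : ℕ → Prop)
    (hP : ∀ m : ℕ, m₀ ≤ m → 2 ∣ m → Pool.Agent.W93.PG.WinP ε A m → P m) :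
    ∃ x₀ : ℕ, ∀ x : ℕ, x₀ ≤ x → ∀ S : Finset (Fin k → ℕ), (∀ n ∈ S, (∀ i, n i ∈ Icc 1 x) ∧
      ∃ F : MvPolynomial (Fin k) ℤ, 1 ≤ F.totalDegree ∧ F.totalDegree ≤ D ∧
      (∀ s, |((F.coeff s : ℤ) : ℝ)| ≤ Real.log x ^ W) ∧
      ∃ m : ℕ, 0 < m ∧ Even m ∧
        |(m : ℝ) - (MvPolynomial.eval (fun i => (n i : ℤ)) F : ℤ)| ≤ Real.log x ^ W ∧ ¬ P m) →
      (S.card : ℝ) ≤ (x : ℝ) ^ k / Real.log x ^ U := by
  classical
  obtain ⟨E, hE⟩ : ∃ E, E = (W + 1) * (D + 1) ^ k := ⟨_, rfl⟩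
  obtain ⟨x₀, h0⟩ := one_multi k D A W (U + E) m₀ ε hε P hP
  obtain ⟨n1, h1⟩ := Pool.Agent.H373R2.T7.ev_L' 3
  refine ⟨n1 + 3 + x₀, fun x hx S hS => ?_⟩
  have hL3 := h1 x (by omega)
  have key := h0 x (by omega)
  obtain ⟨L, hL⟩ : ∃ L, L = Real.log (x : ℝ) := ⟨_, rfl⟩
  rw [← hL] at hL3 hS key ⊢
  have hL0 : 0 < L := by linarith
  have hx1 : 1 ≤ x := by omega
  have hx0 : (0 : ℝ) < x := by exact_mod_cast hx1
  have hLW : 1 ≤ L ^ W := one_le_pow₀ (by linarith)
  obtain ⟨R, hR⟩ : ∃ R : ℕ, R = ⌊L ^ W⌋₊ := ⟨_, rfl⟩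
  have hR1 : (R : ℝ) ≤ L ^ W := by rw [hR]; exact Nat.floor_le (by positivity)
  obtain ⟨S', hS'⟩ : ∃ S' : Finset (Fin k → ℤ), S' = S.image (fun n i => (n i : ℤ)) := ⟨_, rfl⟩
  have hinj : Function.Injective (fun (n : Fin k → ℕ) (i : Fin k) => (n i : ℤ)) := by
    intro n1 n2 h
    funext i
    have h9 := congrFun h i
    simp only at h9
    exact_mod_cast h9
  have hcard : S'.card = S.card := by rw [hS', card_image_of_injective _ hinj]
  obtain ⟨V, hV⟩ : ∃ V : Finset ((Fin k → Fin (D + 1)) → ℤ), V = Fintype.piFinset (fun _ => Icc (-(R : ℤ)) R) := ⟨_, rfl⟩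
  obtain ⟨T, hT⟩ : ∃ T : ((Fin k → Fin (D + 1)) → ℤ) → Finset (Fin k → ℤ), T = fun c => S'.filter (fun n =>
      1 ≤ (mpol k D c).totalDegree ∧ (mpol k D c).totalDegree ≤ D ∧ (∀ s, |(((mpol k D c).coeff s : ℤ) : ℝ)| ≤ L ^ W) ∧
      ∃ m : ℕ, 0 < m ∧ Even m ∧ |(m : ℝ) - (MvPolynomial.eval n (mpol k D c) : ℤ)| ≤ L ^ W ∧ ¬ P m) := ⟨_, rfl⟩
  have hrange : ∀ n ∈ S', ∀ i, n i ∈ Icc (1 : ℤ) x := by
    intro n hn i
    rw [hS', mem_image] at hn
    obtain ⟨n', hn', rfl⟩ := hn
    have := mem_Icc.1 ((hS n' hn').1 i)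
    rw [mem_Icc]
    simp only
    exact ⟨by exact_mod_cast this.1, by exact_mod_cast this.2⟩
  have hsub : S' ⊆ V.biUnion T := by
    intro n hn
    have hn0 := hn
    rw [hS', mem_image] at hn0
    obtain ⟨n', hn', rfl⟩ := hn0
    obtain ⟨_, F, f1, f2, f3, f4⟩ := hS n' hn'
    have f3' : ∀ s, |F.coeff s| ≤ R := by
      intro s
      have g2 : ((F.coeff s).natAbs : ℝ) ≤ L ^ W := by
        rw [Nat.cast_natAbs, Int.cast_abs]
        exact f3 s
      have g3 : (F.coeff s).natAbs ≤ R := by rw [hR]; exact Nat.le_floor g2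
      rw [Int.abs_eq_natAbs]
      exact_mod_cast g3
    rw [mem_biUnion]
    refine ⟨fun e => F.coeff (Finsupp.equivFunOnFinite.symm (fun i => (e i : ℕ))), ?_, ?_⟩
    · rw [hV, Fintype.mem_piFinset]
      intro e
      exact mem_Icc.2 (abs_le.1 (f3' _))
    · rw [hT]
      simp only
      rw [mem_filter, mpol_coeff k D F f2]
      exact ⟨hn, f1, f2, f3, f4⟩
  have hone : ∀ c ∈ V, ((T c).card : ℝ) ≤ (x : ℝ) ^ k / L ^ (U + E) := by
    intro c _
    by_cases hne : (T c).Nonempty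
    swap
    · rw [not_nonempty_iff_eq_empty] at hne
      rw [hne, card_empty, Nat.cast_zero]
      positivity
    obtain ⟨n₁, hn₁⟩ := hne
    have hn₁' := hn₁
    rw [hT] at hn₁'
    simp only at hn₁'
    rw [mem_filter] at hn₁'
    obtain ⟨_, hk1, hk2, hc, _⟩ := hn₁'
    refine key (mpol k D c) hk1 hk2 (fun s => by rw [Int.cast_abs]; exact hc s) (T c) ?_
    intro n hn
    rw [hT] at hn
    simp only at hn
    rw [mem_filter] at hn
    exact ⟨hrange n hn.1, hn.2.2.2.2⟩
  have h2 : (S.card : ℝ) ≤ ∑ c ∈ V, ((T c).card : ℝ) := by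
    rw [← hcard]
    exact_mod_cast (card_le_card hsub).trans card_biUnion_le
  have h3 : (V.card : ℝ) ≤ L ^ E := by
    rw [hV, Fintype.card_piFinset]
    simp only [prod_const, card_univ, Fintype.card_fun, Fintype.card_fin, Int.card_Icc]
    have e : ((R : ℤ) + 1 - -(R : ℤ)).toNat = 2 * R + 1 := by omega
    rw [e, hE, pow_mul]
    push_cast
    apply pow_le_pow_left₀ (by positivity)
    rw [pow_succ]
    nlinarith
  calc (S.card : ℝ) ≤ ∑ c ∈ V, ((T c).card : ℝ) := h2
    _ ≤ ∑ _c ∈ V, (x : ℝ) ^ k / L ^ (U + E) := sum_le_sum hone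
    _ = V.card * ((x : ℝ) ^ k / L ^ (U + E)) := by rw [sum_const, nsmul_eq_mul]
    _ ≤ L ^ E * ((x : ℝ) ^ k / L ^ (U + E)) := mul_le_mul_of_nonneg_right h3 (by positivity)
    _ = (x : ℝ) ^ k / L ^ U := by
        rw [pow_add]
        field_simp

end Pool.Agent.U837.RP
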