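import Pool.Agent.U837.RP.Pol
import Mathlib.Combinatorics.Nullstellensatz

set_option autoImplicit false

/-!
Polynomials in several variables on the lines in a suitable direction.
-/

namespace Pool.Agent.U837.RP
open Finset Polynomial

/-- the restriction of `F` to the line `n + t a` -/
noncomputable def line {k : ℕ} (F : MvPolynomial (Fin k) ℤ) (n a : Fin k → ℤ) : ℤ[X] :=
  MvPolynomial.aeval (fun i => C (n i) + C (a i) * X) F

lemma line_eval {k : ℕ} (F : MvPolynomial (Fin k) ℤ) (n a : Fin k → ℤ) (t : ℤ) :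
    (line F n a).eval t = MvPolynomial.eval (fun i => n i + a i * t) F := by
  unfold line
  rw [← coe_evalRingHom, MvPolynomial.aeval_def, MvPolynomial.hom_eval₂]
  rw [MvPolynomial.eval, MvPolynomial.coe_eval₂Hom]
  congr 1
  · ext z
    simp
  · funext i
    simp

lemma line_sum {k : ℕ} (F : MvPolynomial (Fin k) ℤ) (n a : Fin k → ℤ) :
    line F n a = ∑ s ∈ F.support, C (F.coeff s) * ∏ i : Fin k, (C (n i) + C (a i) * X) ^ s i := by
  unfold line
  rw [MvPolynomial.aeval_def, MvPolynomial.eval₂_eq']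
  rfl

lemma deg_eq {k : ℕ} (s : Fin k →₀ ℕ) : s.degree = ∑ i, s i := by
  exact Finsupp.degree_eq_sum s

lemma natDegree_lin (u v : ℤ) : (C u + C v * X : ℤ[X]).natDegree ≤ 1 := by
  refine (natDegree_add_le _ _).trans (max_le ?_ ?_)
  · simp
  · exact (natDegree_C_mul_le _ _).trans natDegree_X_le

lemma natDegree_prod_lin {k : ℕ} (n a : Fin k → ℤ) (s : Fin k →₀ ℕ) :
    (∏ i : Fin k, (C (n i) + C (a i) * X) ^ s i : ℤ[X]).natDegree ≤ ∑ i, s i := by
  refine (natDegree_prod_le _ _).trans (sum_le_sum fun i _ => ?_)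
  refine natDegree_pow_le.trans ?_
  have := natDegree_lin (n i) (a i)
  nlinarith

lemma coeff_prod_lin {k : ℕ} (n a : Fin k → ℤ) (s : Fin k →₀ ℕ) :
    (∏ i : Fin k, (C (n i) + C (a i) * X) ^ s i : ℤ[X]).coeff (∑ i, s i) = ∏ i, a i ^ s i := by
  have h1 : (∏ i : Fin k, (C (n i) + C (a i) * X) ^ s i : ℤ[X]) =
      ∏ j : (Σ i : Fin k, Fin (s i)), (C (n j.1) + C (a j.1) * X) := by
    rw [Fintype.prod_sigma]
    refine prod_congr rfl fun i _ => ?_
    simp
  have h2 : (∏ i : Fin k, a i ^ s i) = ∏ j : (Σ i : Fin k, Fin (s i)), a j.1 := by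
    rw [Fintype.prod_sigma]
    refine prod_congr rfl fun i _ => ?_
    simp
  have h3 := coeff_prod_of_natDegree_le (univ : Finset (Σ i : Fin k, Fin (s i)))
    (fun j => (C (n j.1) + C (a j.1) * X : ℤ[X])) 1 (fun j _ => natDegree_lin _ _)
  rw [card_univ, Fintype.card_sigma, mul_one] at h3
  simp only [Fintype.card_fin] at h3
  rw [h1, h3, h2]
  refine prod_congr rfl fun j _ => ?_
  rw [coeff_add, coeff_C, if_neg one_ne_zero, zero_add, coeff_C_mul, coeff_X_one, mul_one]

lemma line_natDegree {k : ℕ} (F : MvPolynomial (Fin k) ℤ) (n a : Fin k → ℤ) (d : ℕ) (hd : F.totalDegree ≤ d) :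
    (line F n a).natDegree ≤ d := by
  rw [line_sum]
  apply natDegree_sum_le_of_forall_le
  intro s hs
  refine (natDegree_C_mul_le _ _).trans ((natDegree_prod_lin n a s).trans ?_)
  have h5 := MvPolynomial.le_totalDegree hs
  have h6 : (s.sum fun _ e => e) = ∑ i, s i := by
    rw [Finsupp.sum_fintype _ _ (fun _ => rfl)]
  rw [h6] at h5
  exact h5.trans hd

lemma line_coeff {k : ℕ} (F : MvPolynomial (Fin k) ℤ) (n a : Fin k → ℤ) (d : ℕ) (hd : F.totalDegree ≤ d) :
    (line F n a).coeff d = MvPolynomial.eval a (MvPolynomial.homogeneousComponent d F) := by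
  rw [MvPolynomial.homogeneousComponent_apply, map_sum, line_sum, finsetSum_coeff, sum_filter]
  refine sum_congr rfl fun s hs => ?_
  rw [coeff_C_mul, deg_eq]
  have h5 := MvPolynomial.le_totalDegree hs
  have h6 : (s.sum fun _ e => e) = ∑ i, s i := by
    rw [Finsupp.sum_fintype _ _ (fun _ => rfl)]
  rw [h6] at h5
  by_cases h : ∑ i, s i = d
  · rw [if_pos h, MvPolynomial.eval_monomial, Finsupp.prod_fintype _ _ (fun i => pow_zero _)]
    rw [← h, coeff_prod_lin]
  · rw [if_neg h, coeff_eq_zero_of_natDegree_lt, mul_zero]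
    refine lt_of_le_of_lt (natDegree_prod_lin n a s) ?_
    omega

/-- a direction in which the degree does not drop -/
lemma exists_dir {k : ℕ} (F : MvPolynomial (Fin k) ℤ) (D : ℕ) (h1 : 1 ≤ F.totalDegree) (hD : F.totalDegree ≤ D) :
    ∃ a : Fin k → ℤ, (∀ i, 0 ≤ a i ∧ a i ≤ D) ∧
      MvPolynomial.eval a (MvPolynomial.homogeneousComponent F.totalDegree F) ≠ 0 := by
  classical
  obtain ⟨G, hG⟩ : ∃ G, G = MvPolynomial.homogeneousComponent F.totalDegree F := ⟨_, rfl⟩
  have hhom : G.IsHomogeneous F.totalDegree := by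
    rw [hG]; exact MvPolynomial.homogeneousComponent_isHomogeneous _ _
  have hne : F ≠ 0 := by
    intro h
    rw [h, MvPolynomial.totalDegree_zero] at h1
    omega
  have hsup : F.support.Nonempty := by
    rw [nonempty_iff_ne_empty]
    intro h
    exact hne (MvPolynomial.support_eq_empty.1 h)
  obtain ⟨t, ht, htd⟩ := exists_mem_eq_sup F.support hsup (fun s => s.sum fun _ e => e)
  have htd' : t.degree = F.totalDegree := by
    rw [deg_eq]
    have h6 : (t.sum fun _ e => e) = ∑ i, t i := by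
      rw [Finsupp.sum_fintype _ _ (fun _ => rfl)]
    rw [← h6, ← htd]
    rfl
  have hct : G.coeff t ≠ 0 := by
    rw [hG, MvPolynomial.coeff_homogeneousComponent, if_pos htd']
    exact MvPolynomial.mem_support_iff.1 ht
  have hG0 : G ≠ 0 := by
    intro h
    rw [h, MvPolynomial.coeff_zero] at hct
    exact hct rfl
  have hGd : G.totalDegree = t.degree := by
    rw [hhom.totalDegree hG0, htd']
  obtain ⟨a, ha1, ha2⟩ := MvPolynomial.combinatorial_nullstellensatz_exists_eval_nonzero G t hct hGd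
    (fun _ => Icc (0 : ℤ) D) (by
      intro i
      rw [Int.card_Icc]
      have h7 : t i ≤ ∑ i, t i := single_le_sum (f := fun i => t i) (fun _ _ => Nat.zero_le _) (mem_univ i)
      rw [deg_eq] at htd'
      omega)
  refine ⟨a, fun i => ?_, ?_⟩
  · exact mem_Icc.1 (ha1 i)
  · rw [← hG]
    exact ha2

lemma card_support_le {k : ℕ} (F : MvPolynomial (Fin k) ℤ) (D : ℕ) (hD : F.totalDegree ≤ D) :
    F.support.card ≤ (D + 1) ^ k := by
  have h7 : (F.support.image (fun s : Fin k →₀ ℕ => (s : Fin k → ℕ))).card ≤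
      (Fintype.piFinset (fun _ : Fin k => range (D + 1))).card := by
    apply card_le_card
    intro g hg
    rw [mem_image] at hg
    obtain ⟨s, hs, rfl⟩ := hg
    rw [Fintype.mem_piFinset]
    intro i
    rw [mem_range]
    have h5 := MvPolynomial.le_totalDegree hs
    have h6 : (s.sum fun _ e => e) = ∑ i, s i := by
      rw [Finsupp.sum_fintype _ _ (fun _ => rfl)]
    rw [h6] at h5
    have h8 : s i ≤ ∑ i, s i := single_le_sum (f := fun i => s i) (fun _ _ => Nat.zero_le _) (mem_univ i)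
    omega
  rw [card_image_of_injective _ DFunLike.coe_injective, Fintype.card_piFinset] at h7
  simpa using h7

/-- bounds for the values -/
lemma eval_bound {k : ℕ} (F G : MvPolynomial (Fin k) ℤ) (D R y d : ℕ) (hD : F.totalDegree ≤ D) (hy : 1 ≤ y)
    (hG : ∀ s ∈ G.support, s ∈ F.support ∧ G.coeff s = F.coeff s) (hGd : G.totalDegree ≤ d)
    (hc : ∀ s, |F.coeff s| ≤ R) (b : Fin k → ℤ) (hb : ∀ i, |b i| ≤ y) :
    |MvPolynomial.eval b G| ≤ ((D + 1) ^ k * R * y ^ d : ℕ) := by
  rw [MvPolynomial.eval_eq']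
  refine (abs_sum_le_sum_abs _ _).trans ?_
  have h1 : ∀ s ∈ G.support, |G.coeff s * ∏ i, b i ^ s i| ≤ (R : ℤ) * (y : ℤ) ^ d := by
    intro s hs
    rw [abs_mul, abs_prod]
    have h5 := MvPolynomial.le_totalDegree hs
    have h6 : (s.sum fun _ e => e) = ∑ i, s i := by
      rw [Finsupp.sum_fintype _ _ (fun _ => rfl)]
    rw [h6] at h5
    apply mul_le_mul
    · rw [(hG s hs).2]
      exact hc s
    · calc ∏ i, |b i ^ s i| ≤ ∏ i : Fin k, (y : ℤ) ^ s i := by
            apply prod_le_prod
            · intro i _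
              positivity
            · intro i _
              rw [abs_pow]
              exact pow_le_pow_left₀ (abs_nonneg _) (hb i) _
        _ = (y : ℤ) ^ (∑ i, s i) := by rw [prod_pow_eq_pow_sum]
        _ ≤ (y : ℤ) ^ d := pow_le_pow_right₀ (by exact_mod_cast hy) (h5.trans hGd)
    · positivity
    · positivity
  refine (sum_le_sum h1).trans ?_
  rw [sum_const, nsmul_eq_mul]
  push_cast
  rw [mul_assoc]
  apply mul_le_mul_of_nonneg_right _ (by positivity)
  have h2 : G.support.card ≤ (D + 1) ^ k :=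
    (card_le_card fun s hs => (hG s hs).1).trans (card_support_le F D hD)
  exact_mod_cast h2

end Pool.Agent.U837.RP
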